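import Mathlib

/-! The pure count of section 3e of helper82's full text (`h82_full.md`). -/

namespace Pool.Agent.H24Q

open Finset

variable {α : Type*} [DecidableEq α]

/-- label count: distinct labels of a set `P` of run positions `(s, j)` -/
theorem label_count (R : Finset α) (St : α → Finset α) (g : α → ℕ) (q : α → ℕ → α)
    (Sc : Finset α) (y : α) (Pe : Finset α)
    (hlab : ∀ s ∈ St y, ∀ j, 1 ≤ j → j ≤ g s → q s j ∈ Sc ∨ ∃ l ∈ R.erase y, q s j ∈ St l)
    (hinjv : ∀ s ∈ St y, ∀ s' ∈ St y, ∀ j j', 1 ≤ j → j ≤ g s → 1 ≤ j' → j' ≤ g s' →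
      q s j = q s' j' → s = s' ∧ j = j')
    (hinjl : ∀ s ∈ St y, ∀ s' ∈ St y, ∀ j j', 1 ≤ j → j ≤ g s → 1 ≤ j' → j' ≤ g s' →
      ∀ l ∈ R, q s j ∈ St l → q s' j' ∈ St l → s = s' ∧ j = j')
    (hPiq : ∀ s ∈ St y, ∀ j, 1 ≤ j → j ≤ g s → ∀ l ∈ Pe, q s j ∉ St l)
    (P : Finset (Σ _ : α, ℕ)) (hP : ∀ x ∈ P, x.1 ∈ St y ∧ 1 ≤ x.2 ∧ x.2 ≤ g x.1)
    (C : Finset α) (hC : ∀ x ∈ P, ∀ l ∈ R.erase y, q x.1 x.2 ∈ St l → l ∈ C) :
    P.card ≤ Sc.card + (((R.erase y) \ Pe) ∩ C).card := by
  classical
  have hsplit : P.card = (P.filter (fun x => q x.1 x.2 ∈ Sc)).card +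
      (P.filter (fun x => ¬ q x.1 x.2 ∈ Sc)).card := by
    rw [Finset.card_filter_add_card_filter_not]
  rw [hsplit]
  refine Nat.add_le_add ?_ ?_
  · refine Finset.card_le_card_of_injOn (fun x => q x.1 x.2) ?_ ?_
    · intro x hx
      exact (Finset.mem_filter.1 hx).2
    · intro x hx x' hx' h
      have h1 := Finset.mem_filter.1 (Finset.mem_coe.1 hx)
      have h2 := Finset.mem_filter.1 (Finset.mem_coe.1 hx')
      obtain ⟨a1, a2, a3⟩ := hP x h1.1
      obtain ⟨b1, b2, b3⟩ := hP x' h2.1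
      obtain ⟨h3, h4⟩ := hinjv x.1 a1 x'.1 b1 x.2 x'.2 a2 a3 b2 b3 h
      exact Sigma.ext h3 (heq_of_eq h4)
  · have hex : ∀ x : (Σ _ : α, ℕ), x ∈ P.filter (fun x => ¬ q x.1 x.2 ∈ Sc) →
        ∃ l ∈ R.erase y, q x.1 x.2 ∈ St l := by
      intro x hx
      have h1 := Finset.mem_filter.1 hx
      obtain ⟨a1, a2, a3⟩ := hP x h1.1
      rcases hlab x.1 a1 x.2 a2 a3 with h | h
      · exact absurd h h1.2
      · exact h
    choose f hf1 hf2 using hex
    refine Finset.card_le_card_of_injOn
      (fun x => if hx : x ∈ P.filter (fun x => ¬ q x.1 x.2 ∈ Sc) then f x hx else x.1) ?_ ?_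
    · intro x hx
      have hx' := Finset.mem_coe.1 hx
      simp only [hx', dif_pos]
      have h1 := Finset.mem_filter.1 hx'
      obtain ⟨a1, a2, a3⟩ := hP x h1.1
      rw [Finset.mem_coe, Finset.mem_inter, Finset.mem_sdiff]
      exact ⟨⟨hf1 x hx', fun h => hPiq x.1 a1 x.2 a2 a3 _ h (hf2 x hx')⟩,
        hC x h1.1 _ (hf1 x hx') (hf2 x hx')⟩
    · intro x hx x' hx' h
      have h1 := Finset.mem_coe.1 hx
      have h2 := Finset.mem_coe.1 hx'
      simp only [h1, h2, dif_pos] at h
      obtain ⟨a1, a2, a3⟩ := hP x (Finset.mem_filter.1 h1).1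
      obtain ⟨b1, b2, b3⟩ := hP x' (Finset.mem_filter.1 h2).1
      obtain ⟨h3, h4⟩ := hinjl x.1 a1 x'.1 b1 x.2 x'.2 a2 a3 b2 b3 _
        (Finset.mem_of_mem_erase (hf1 x h1)) (hf2 x h1) (h ▸ hf2 x' h2)
      exact Sigma.ext h3 (heq_of_eq h4)

/-- The count: either no component has a strong hub, or some strong hub `w` has a run end
`e w` with enough non-neighbours. -/
theorem count (R : Finset α) (St : α → Finset α) (wk : α → Prop)
    (n : α → α → ℕ) (m B : α → ℕ) (g : α → ℕ) (e : α → α) (Pi : α → Finset α)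
    (nn : α → ℕ) (q : α → ℕ → α) (Sc : Finset α)
    (hm : ∀ y ∈ R, 1 ≤ m y) (hn : ∀ y ∈ R, ∀ s ∈ St y, n y s ≤ m y)
    (hB : ∀ y ∈ R, ∑ l ∈ R.erase y, m l + Sc.card ≤ B y)
    (h2 : ∀ y ∈ R, ¬ wk y → 2 ≤ (St y).card)
    (hPiR : ∀ y ∈ R, ∀ w ∈ St y, Pi (e w) ⊆ R.erase y)
    (hPiw : ∀ y ∈ R, ∀ w ∈ St y, ∀ l ∈ Pi (e w), wk l)
    (hlab : ∀ y ∈ R, ∀ s ∈ St y, ∀ j, 1 ≤ j → j ≤ g s →
      q s j ∈ Sc ∨ ∃ l ∈ R.erase y, q s j ∈ St l)
    (hinjv : ∀ y ∈ R, ∀ s ∈ St y, ∀ s' ∈ St y, ∀ j j', 1 ≤ j → j ≤ g s → 1 ≤ j' → j' ≤ g s' →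
      q s j = q s' j' → s = s' ∧ j = j')
    (hinjl : ∀ y ∈ R, ∀ s ∈ St y, ∀ s' ∈ St y, ∀ j j', 1 ≤ j → j ≤ g s → 1 ≤ j' → j' ≤ g s' →
      ∀ l ∈ R, q s j ∈ St l → q s' j' ∈ St l → s = s' ∧ j = j')
    (hPiq : ∀ y ∈ R, ∀ w ∈ St y, ∀ s ∈ St y, ∀ j, 1 ≤ j → j ≤ g s → ∀ l ∈ Pi (e w), q s j ∉ St l)
    (hg : ∀ y ∈ R, ∀ s ∈ St y, ∀ j, 1 ≤ j → j ≤ g s → g (q s j) = g s - j)
    (hsup1 : ∀ y ∈ R, ∀ w ∈ St y, ∀ μ, (μ + 1 = (St y).card ∨ (wk y ∧ μ = (St y).card)) →
      1 ≤ μ → μ * (B y + 1 - g w) + ∑ s ∈ St y, n y s ≤ nn (e w) + 1)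
    (hsup2 : ∀ y ∈ R, ∀ w ∈ St y, 2 ≤ (St y).card → (∀ s ∈ St y, 2 ≤ n y s) →
      ((St y).card - 1) * (2 * B y + 2 - g w) + ∑ s ∈ St y, n y s ≤ nn (e w) + 2) :
    (∀ y ∈ R, St y = ∅) ∨ ∃ y ∈ R, ∃ w ∈ St y,
      ∑ l ∈ R, ∑ s ∈ St l, n l s + (Pi (e w)).card ≤ nn (e w) + R.card := by
  classical
  by_cases hE : ∀ y ∈ R, St y = ∅
  · exact Or.inl hE
  right
  push Not at hE
  obtain ⟨ye, hye, hye'⟩ := hE
  -- the maximal number of strong hubs
  obtain ⟨ym, hym, hmax⟩ := Finset.exists_max_image R (fun y => (St y).card) ⟨ye, hye⟩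
  set h := (St ym).card with hh
  have hle : ∀ l ∈ R, (St l).card ≤ h := hmax
  have hpos : 1 ≤ h := le_trans (Finset.card_pos.2 hye') (hle ye hye)
  set T : α → ℕ := fun l => ∑ s ∈ St l, n l s with hT
  have hTm : ∀ l ∈ R, T l ≤ (St l).card * m l := by
    intro l hl
    have := Finset.sum_le_card_nsmul (St l) (n l) (m l) (hn l hl)
    simpa [smul_eq_mul] using this
  have hsum : ∀ y ∈ R, ∑ l ∈ R, T l = T y + ∑ l ∈ R.erase y, T l := fun y hy =>
    (Finset.add_sum_erase R T hy).symm
  have hmcard : ∀ y ∈ R, (R.erase y).card ≤ ∑ l ∈ R.erase y, m l := by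
    intro y hy
    have := Finset.card_nsmul_le_sum (R.erase y) m 1 (fun l hl => hm l (Finset.mem_of_mem_erase hl))
    simpa using this
  have hcard : ∀ y ∈ R, (R.erase y).card + 1 = R.card := fun y hy => Finset.card_erase_add_one hy
  -- all labels of one run
  have hrun : ∀ y ∈ R, ∀ w ∈ St y, g w ≤ Sc.card + (R.erase y).card := by
    intro y hy w hw
    have hP := label_count R St g q Sc y (Pi (e w)) (hlab y hy) (hinjv y hy) (hinjl y hy)
      (hPiq y hy w hw) (({w} : Finset α).sigma (fun s => Finset.Icc 1 (g s)))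
      (by
        intro x hx
        rw [Finset.mem_sigma, Finset.mem_singleton, Finset.mem_Icc] at hx
        exact ⟨hx.1 ▸ hw, hx.2.1, hx.2.2⟩) R
      (fun x hx l hl _ => Finset.mem_of_mem_erase hl)
    rw [Finset.card_sigma] at hP
    simp only [Finset.sum_singleton, Nat.card_Icc, Nat.add_sub_cancel] at hP
    refine hP.trans (Nat.add_le_add_left (Finset.card_le_card ?_) _)
    exact Finset.inter_subset_left.trans Finset.sdiff_subset
  by_cases hA : ∃ y ∈ R, (St y).card = h ∧ wk y
  · -- case A+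
    obtain ⟨y, hy, hyc, hyw⟩ := hA
    have hne : (St y).Nonempty := Finset.card_pos.1 (by omega)
    obtain ⟨w, hw, hmin⟩ := Finset.exists_min_image (St y) g hne
    refine ⟨y, hy, w, hw, ?_⟩
    have hP := label_count R St g q Sc y (Pi (e w)) (hlab y hy) (hinjv y hy) (hinjl y hy)
      (hPiq y hy w hw) ((St y).sigma (fun _ => Finset.Icc 1 (g w)))
      (by
        intro x hx
        rw [Finset.mem_sigma, Finset.mem_Icc] at hx
        exact ⟨hx.1, hx.2.1, hx.2.2.trans (hmin _ hx.1)⟩) R
      (fun x hx l hl _ => Finset.mem_of_mem_erase hl)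
    rw [Finset.card_sigma] at hP
    simp only [Finset.sum_const, Nat.card_Icc, Nat.add_sub_cancel, smul_eq_mul] at hP
    have h3 : (((R.erase y) \ Pi (e w)) ∩ R).card + (Pi (e w)).card ≤ (R.erase y).card := by
      have h4 : (((R.erase y) \ Pi (e w)) ∩ R).card ≤ ((R.erase y) \ Pi (e w)).card :=
        Finset.card_le_card Finset.inter_subset_left
      have h5 : ((R.erase y) \ Pi (e w)).card + (Pi (e w)).card = (R.erase y).card :=
        Finset.card_sdiff_add_card_eq_card (hPiR y hy w hw)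
      omega
    have hs := hsup1 y hy w hw h (Or.inr ⟨hyw, hyc.symm⟩) hpos
    have hTo : ∑ l ∈ R.erase y, T l ≤ h * ∑ l ∈ R.erase y, m l := by
      rw [Finset.mul_sum]
      refine Finset.sum_le_sum fun l hl => ?_
      have hl' := Finset.mem_of_mem_erase hl
      exact (hTm l hl').trans (Nat.mul_le_mul_right _ (hle l hl'))
    have hB' := hB y hy
    have hmc := hmcard y hy
    have hc := hcard y hy
    have hr := hrun y hy w hw
    have hs' : (h * (B y + 1 - g w) : ℕ) + h * g w = h * (B y + 1) := by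
      rw [← Nat.mul_add]; congr 1; omega
    have hb : h * (∑ l ∈ R.erase y, m l + Sc.card + 1) ≤ h * (B y + 1) :=
      Nat.mul_le_mul_left _ (by omega)
    have hb2 : h * (∑ l ∈ R.erase y, m l + Sc.card + 1) =
        h * ∑ l ∈ R.erase y, m l + h * Sc.card + h := by ring
    have hb3 : Sc.card ≤ h * Sc.card := Nat.le_mul_of_pos_left _ hpos
    rw [hyc] at hP
    have hsm := hsum y hy
    change ∑ l ∈ R, T l + (Pi (e w)).card ≤ nn (e w) + R.card
    change h * (B y + 1 - g w) + T y ≤ nn (e w) + 1 at hs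
    omega
  · push Not at hA
    have hh2 : 2 ≤ h := h2 ym hym (hA ym hym rfl)
    by_cases hI : ∀ l ∈ R, (St l).card = h → T l ≤ m l * (h - 1) + 1
    · -- case I
      have hneP : (R.filter (fun y => (St y).card = h)).Nonempty :=
        ⟨ym, Finset.mem_filter.2 ⟨hym, rfl⟩⟩
      have hneS : ((R.filter (fun y => (St y).card = h)).biUnion St).Nonempty := by
        obtain ⟨w, hw⟩ : (St ym).Nonempty := Finset.card_pos.1 (by omega)
        exact ⟨w, Finset.mem_biUnion.2 ⟨ym, Finset.mem_filter.2 ⟨hym, rfl⟩, hw⟩⟩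
      obtain ⟨w, hw, hmin⟩ := Finset.exists_min_image _ g hneS
      obtain ⟨y, hy0, hwy⟩ := Finset.mem_biUnion.1 hw
      obtain ⟨hy, hyc⟩ := Finset.mem_filter.1 hy0
      refine ⟨y, hy, w, hwy, ?_⟩
      have hmin' : ∀ l ∈ R, (St l).card = h → ∀ s ∈ St l, g w ≤ g s := fun l hl hlc s hs =>
        hmin s (Finset.mem_biUnion.2 ⟨l, Finset.mem_filter.2 ⟨hl, hlc⟩, hs⟩)
      have hP := label_count R St g q Sc y (Pi (e w)) (hlab y hy) (hinjv y hy) (hinjl y hy)
        (hPiq y hy w hwy) ((St y).sigma (fun s => Finset.Icc (g s - g w + 1) (g s)))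
        (by
          intro x hx
          rw [Finset.mem_sigma, Finset.mem_Icc] at hx
          exact ⟨hx.1, by omega, hx.2.2⟩) (R.filter (fun l => (St l).card < h))
        (by
          intro x hx l hl hxl
          rw [Finset.mem_sigma, Finset.mem_Icc] at hx
          have hl' := Finset.mem_of_mem_erase hl
          refine Finset.mem_filter.2 ⟨hl', lt_of_le_of_ne (hle l hl') fun hlc => ?_⟩
          have h6 := hmin' l hl' hlc _ hxl
          have h7 := hmin' y hy hyc _ hx.1
          rw [hg y hy x.1 hx.1 x.2 (by omega) hx.2.2] at h6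
          have hx2 := hx.2.1
          by_cases hgw : g w = 0
          · have := hx.2.2; omega
          · omega)
      rw [Finset.card_sigma] at hP
      have hPs : ∑ s ∈ St y, (Finset.Icc (g s - g w + 1) (g s)).card = h * g w := by
        rw [← hyc, ← smul_eq_mul, ← Finset.sum_const]
        refine Finset.sum_congr rfl fun s hs => ?_
        have h7 := hmin' y hy hyc _ hs
        rw [Nat.card_Icc]; omega
      rw [hPs] at hP
      -- split the other components
      set A1 := (R.erase y).filter (fun l => (St l).card = h) with hA1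
      set A2 := ((R.erase y) \ Pi (e w)) ∩ R.filter (fun l => (St l).card < h) with hA2
      have hcardsplit : A1.card + A2.card + (Pi (e w)).card = (R.erase y).card := by
        have hPi := hPiR y hy w hwy
        have h8 : Disjoint A1 A2 := by
          rw [Finset.disjoint_left]
          intro l h9 h10
          have h11 := (Finset.mem_filter.1 h9).2
          have h12 := (Finset.mem_filter.1 (Finset.mem_inter.1 h10).2).2
          omega
        have h9 : Disjoint (A1 ∪ A2) (Pi (e w)) := by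
          rw [Finset.disjoint_left]
          intro l h10 h11
          rcases Finset.mem_union.1 h10 with h12 | h12
          · obtain ⟨h13, h14⟩ := Finset.mem_filter.1 h12
            exact hA l (Finset.mem_of_mem_erase h13) h14 (hPiw y hy w hwy l h11)
          · exact (Finset.mem_sdiff.1 (Finset.mem_inter.1 h12).1).2 h11
        rw [← Finset.card_union_of_disjoint h8, ← Finset.card_union_of_disjoint h9]
        congr 1
        ext l
        simp only [hA1, hA2, Finset.mem_union, Finset.mem_filter, Finset.mem_inter,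
          Finset.mem_sdiff]
        constructor
        · rintro ((h10 | h10) | h10)
          · exact h10.1
          · exact h10.1.1
          · exact hPi h10
        · intro h10
          have h11 := hle l (Finset.mem_of_mem_erase h10)
          by_cases h12 : (St l).card = h
          · exact Or.inl (Or.inl ⟨h10, h12⟩)
          by_cases h13 : l ∈ Pi (e w)
          · exact Or.inr h13
          · exact Or.inl (Or.inr ⟨⟨h10, h13⟩, Finset.mem_of_mem_erase h10, by omega⟩)
      have hTo : ∑ l ∈ R.erase y, T l ≤ (h - 1) * ∑ l ∈ R.erase y, m l + A1.card := by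
        rw [Finset.mul_sum, hA1, Finset.card_filter, ← Finset.sum_add_distrib]
        refine Finset.sum_le_sum fun l hl => ?_
        have hl' := Finset.mem_of_mem_erase hl
        by_cases h12 : (St l).card = h
        · rw [if_pos h12, Nat.mul_comm]
          exact hI l hl' h12
        · rw [if_neg h12]
          have h11 := hle l hl'
          have := (hTm l hl').trans (Nat.mul_le_mul_right (m l) (show (St l).card ≤ h - 1 by omega))
          simpa using this
      have hs := hsup1 y hy w hwy (h - 1) (Or.inl (by omega)) (by omega)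
      have hB' := hB y hy
      have hmc := hmcard y hy
      have hc := hcard y hy
      have hr := hrun y hy w hwy
      obtain ⟨r, hr1⟩ : ∃ r, h = r + 2 := ⟨h - 2, by omega⟩
      have hh1 : h - 1 = r + 1 := by omega
      rw [hh1] at hs hTo
      rw [hr1] at hP
      have hs' : (r + 1) * (B y + 1 - g w) + (r + 1) * g w = (r + 1) * (B y + 1) := by
        rw [← Nat.mul_add]; congr 1; omega
      have hb : (r + 1) * (∑ l ∈ R.erase y, m l + Sc.card + 1) ≤ (r + 1) * (B y + 1) :=
        Nat.mul_le_mul_left _ (by omega)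
      have hb2 : (r + 1) * (∑ l ∈ R.erase y, m l + Sc.card + 1) =
          (r + 1) * ∑ l ∈ R.erase y, m l + r * Sc.card + Sc.card + r + 1 := by ring
      have hb4 : (r + 2) * g w = (r + 1) * g w + g w := by ring
      have hsm := hsum y hy
      change ∑ l ∈ R, T l + (Pi (e w)).card ≤ nn (e w) + R.card
      change (r + 1) * (B y + 1 - g w) + T y ≤ nn (e w) + 1 at hs
      omega
    · -- case II
      push Not at hI
      obtain ⟨y, hy, hyc, hyT⟩ := hI
      have hall : ∀ s ∈ St y, 2 ≤ n y s := by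
        intro s hs
        have h3 : T y = n y s + ∑ s' ∈ (St y).erase s, n y s' := (Finset.add_sum_erase _ _ hs).symm
        have h4 : ∑ s' ∈ (St y).erase s, n y s' ≤ ((St y).erase s).card * m y := by
          have := Finset.sum_le_card_nsmul ((St y).erase s) (n y) (m y)
            (fun s' hs' => hn y hy s' (Finset.mem_of_mem_erase hs'))
          simpa [smul_eq_mul] using this
        have h5 : ((St y).erase s).card = h - 1 := by rw [Finset.card_erase_of_mem hs, hyc]
        rw [h5, Nat.mul_comm] at h4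
        omega
      obtain ⟨w, hw⟩ : (St y).Nonempty := Finset.card_pos.1 (by omega)
      refine ⟨y, hy, w, hw, ?_⟩
      have hs := hsup2 y hy w hw (by omega) hall
      rw [hyc] at hs
      have hTo : ∑ l ∈ R.erase y, T l + (Pi (e w)).card ≤ h * ∑ l ∈ R.erase y, m l := by
        have h3 : (Pi (e w)).card = ∑ l ∈ R.erase y, if l ∈ Pi (e w) then 1 else 0 := by
          rw [← Finset.card_filter]
          congr 1
          ext l
          rw [Finset.mem_filter]
          exact ⟨fun h4 => ⟨hPiR y hy w hw h4, h4⟩, fun h4 => h4.2⟩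
        rw [h3, Finset.mul_sum, ← Finset.sum_add_distrib]
        refine Finset.sum_le_sum fun l hl => ?_
        have hl' := Finset.mem_of_mem_erase hl
        have h11 := hle l hl'
        by_cases h4 : l ∈ Pi (e w)
        · rw [if_pos h4]
          have h5 : (St l).card ≠ h := fun h6 => hA l hl' h6 (hPiw y hy w hw l h4)
          have h6 := (hTm l hl').trans
            (Nat.mul_le_mul_right (m l) (show (St l).card ≤ h - 1 by omega))
          have h7 := hm l hl'
          have h8 : h * m l = (h - 1) * m l + m l := by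
            rw [← Nat.succ_mul]; congr 1; omega
          omega
        · rw [if_neg h4]
          have h6 := (hTm l hl').trans (Nat.mul_le_mul_right (m l) h11)
          simpa using h6
      have hB' := hB y hy
      have hmc := hmcard y hy
      have hc := hcard y hy
      have hr := hrun y hy w hw
      obtain ⟨r, hr1⟩ : ∃ r, h = r + 2 := ⟨h - 2, by omega⟩
      have hh1 : h - 1 = r + 1 := by omega
      obtain ⟨u, hu⟩ : ∃ u, ∑ l ∈ R.erase y, m l = (R.erase y).card + u :=
        ⟨_, (Nat.add_sub_cancel' hmc).symm⟩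
      rw [hh1] at hs
      have hb : (r + 1) * (∑ l ∈ R.erase y, m l + u + Sc.card + 2) ≤
          (r + 1) * (2 * B y + 2 - g w) := Nat.mul_le_mul_left _ (by omega)
      have hb2 : (r + 1) * (∑ l ∈ R.erase y, m l + u + Sc.card + 2) =
          (r + 1) * ∑ l ∈ R.erase y, m l + (r + 1) * (u + Sc.card) + 2 * r + 2 := by ring
      have hb3 : u + Sc.card ≤ (r + 1) * (u + Sc.card) := Nat.le_mul_of_pos_left _ (by omega)
      have hb4 : h * ∑ l ∈ R.erase y, m l = (r + 1) * ∑ l ∈ R.erase y, m l +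
          ∑ l ∈ R.erase y, m l := by rw [hr1]; ring
      have hsm := hsum y hy
      change ∑ l ∈ R, T l + (Pi (e w)).card ≤ nn (e w) + R.card
      change (r + 1) * (2 * B y + 2 - g w) + T y ≤ nn (e w) + 2 at hs
      omega

end Pool.Agent.H24Q
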