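import Pool.Agent.H93L.Parts
import Pool.Agent.H82M.DatG
import Pool.Agent.H62P.MainFin
import Pool.Agent.H62P.TransP
import Pool.Agent.H35P.Sum
import Pool.Agent.H37F.Gam
import Pool.Agent.H40C.One
import Pool.Agent.H6T.Lab4
import Pool.Agent.H18C.CutFin
import Pool.Agent.H88C.Main

/-! The 2-connected step of the package, and the full theorem. -/

set_option autoImplicit false

namespace Pool.Agent.H24Q

open List Pool.Agent.TF82 Pool.Agent.TFC Pool.Agent.TFB Pool.Agent.EG31
  Pool.Agent.H18C Pool.Agent.H62P Pool.Agent.H6T.Lab Pool.Agent.H93L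

universe u

set_option linter.unusedSectionVars false
set_option linter.unusedVariables false

theorem mainStepP : MainStepP.{u} := by
  intro V _ _ G _ W b f hK hf h2 hIH
  by_cases hf1 : f ≤ 1
  · have := hK.pos hf
    obtain rfl : f = 1 := by omega
    exact H40C.pkg_one hK h2
  push Not at hf1
  obtain ⟨c, hM⟩ := exists_main_cycle hK.cw hK.ne
  obtain ⟨R, hR⟩ := H62P.exists_reps G [c]
  have hFam : Fam G [c] := hM.fam
  have hc : CycL G c := hFam.cyc c (by simp)
  have hM' : IsMax G ([c] : List (List V)).length [c] := hM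
  have hfl : ([c] : List (List V)).flatten = c := by simp
  have hCWb : CWb G Finset.univ W b := by
    intro J hJ hJi v hv
    exact hK.sur J hJ hJi v hv ⟨Finset.mem_univ _, (Finset.mem_sdiff.1 (hJ hv)).2,
      h2 v (Finset.mem_univ _)⟩
  have hlab : LabP G W b [c] := fun J h1 h3 h4 h5 => lab hCWb h2 hM' rfl h1 h3 h4 h5
  obtain ⟨I, bb, hP⟩ := exists_parts hK hf hIH hM hR hlab
  classical
  set K := R.filter (fun y => (comp G [c] y \ W).Nonempty) with hKdef
  have hKR : K ⊆ R := Finset.filter_subset _ _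
  have hKne' : ∀ y ∈ K, (comp G [c] y \ W).Nonempty := fun y hy => (Finset.mem_filter.1 hy).2
  -- a component with a member
  have hKne : K.Nonempty := by
    by_contra hcon
    rw [Finset.not_nonempty_iff_eq_empty] at hcon
    have h1 : ∑ y ∈ R, (I y).card = 0 := by
      refine Finset.sum_eq_zero fun y hy => ?_
      rw [hP.emp y hy (fun h => ?_), Finset.card_empty]
      have : y ∈ K := Finset.mem_filter.2 ⟨hy, h⟩
      rw [hcon] at this
      simp at this
    have := hP.tot
    omega
  obtain ⟨y0, hy0⟩ := hKne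
  have hsub : ∀ y, comp G [c] y ⊆ unc [c] := fun y x hx => (mem_comp.1 hx).1
  have hsumE : ∀ y ∈ R, (I y).card + ∑ j ∈ R.erase y, (I j).card = ∑ j ∈ R, (I j).card :=
    fun y hy => Finset.add_sum_erase R (fun j => (I j).card) hy
  have hP0 := hP.pkg y0 (hKR hy0) (hKne' y0 hy0)
  have hb0 := hP.bbd y0 (hKR hy0)
  have hs0 := hsumE y0 (hKR hy0)
  have htot := hP.tot
  obtain ⟨hlen, hgam⟩ := H37F.gam_step hM h2 (hsub y0) hP0 (b := b) (f := f) (by omega)
  -- the optional vertices on the cycle
  have hWc : ∀ y, (W ∩ ([c] : List (List V)).flatten.toFinset).card ≤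
      (W \ comp G [c] y).card := by
    intro y
    refine Finset.card_le_card fun x hx => ?_
    obtain ⟨h1, h3⟩ := Finset.mem_inter.1 hx
    refine Finset.mem_sdiff.2 ⟨h1, fun h => ?_⟩
    exact mem_unc.1 (hsub y h) (List.mem_toFinset.1 h3)
  have hKcard : K.card ≤ ∑ j ∈ R, (I j).card := by
    rw [Finset.card_eq_sum_ones]
    refine (Finset.sum_le_sum (fun y hy => ?_)).trans (Finset.sum_le_sum_of_subset hKR)
    exact Finset.card_pos.2 (hP.pos y (hKR hy) (hKne' y hy))
  have hN : K.card + 2 + (W ∩ ([c] : List (List V)).flatten.toFinset).card <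
      ([c] : List (List V)).flatten.toFinset.card := by
    obtain ⟨D, hD, hD2, hn⟩ := hP0.co
    have h1 := H37F.gam_long hM h2 (hD.trans (hsub y0)) hD2 hn
    rw [List.toFinset_card_of_nodup hFam.nod, hfl]
    have h3 := hWc y0
    rw [hfl] at h3
    omega
  have hSit : H82M.Sit G W [c] K (fun y => (I y).card) bb I := by
    refine ⟨hM', rfl, h2, hKR.trans hR.sub, ?_, ?_, ?_, ?_, ?_, hN⟩
    · intro y hy y' hy' hne h
      exact Finset.disjoint_left.1 (hR.dis y (hKR hy) y' (hKR hy') hne) h
        (mem_comp.2 ⟨hR.sub (hKR hy'), Relation.ReflTransGen.refl⟩)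
    · intro y hy
      exact Finset.card_pos.2 (hP.pos y (hKR hy) (hKne' y hy))
    · intro y hy
      exact hP.pkg y (hKR hy) (hKne' y hy)
    · intro y hy
      exact hP.kb y (hKR hy) (hKne' y hy)
    · intro y hy
      have h1 := hP.bbd y (hKR hy)
      have h3 := hWc y
      have h4 : ∑ z ∈ K.erase y, (I z).card ≤ ∑ z ∈ R.erase y, (I z).card :=
        Finset.sum_le_sum_of_subset (Finset.erase_subset_erase _ hKR)
      omega
  obtain ⟨p, hpC, hpW, hpstr, hcount⟩ := H88C.Dat.count hSit.dat ⟨y0, hy0⟩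
  have hpc : p ∈ c := by
    have : p ∈ ([c] : List (List V)).flatten.toFinset := hpC
    rw [hfl, List.mem_toFinset] at this
    exact this
  have hnp : ∀ y ∈ K, ∀ x ∈ comp G [c] y, ∀ x' ∈ comp G [c] y, G.Adj p x → G.Adj p x' →
      Near G (comp G [c] y) (Sp G W [c] (comp G [c] y)) x x' := by
    intro y hy x hx x' hx' h1 h3
    by_contra hcon
    exact hpstr y hy ⟨by rw [hfl]; exact hpc, x, hx, x', hx', h1, h3, hcon⟩
  refine main_fin (S' := fun y => Sp G W [c] (comp G [c] y)) hK h2 hM hR hP.subW hP.ind hP.clean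
    hP.WS hP.sur hP.p1 hP.p2 hlen hgam hpc hpW ?_ hP.tot ?_
  · intro y hy v hv
    have hne := hP.ne_of_mem hy hv
    have hyK : y ∈ K := Finset.mem_filter.2 ⟨hy, hne⟩
    exact H35P.not_adj_members (fun v hv => hP.good hy hv)
      (fun v hv h => hP.clean y hy v hv p hpc h) (hnp y hyK) v hv
  · have h5 := H35P.sum_ineq (S' := fun y => Sp G W [c] (comp G [c] y)) (I := I) (K := K)
      (T := fun y => ∑ w ∈ c.toFinset, ((I y).filter (fun u => G.Adj w u)).card)
      (nn := hSit.dat.nn p) hFam hR hKR ?_ ?_ (p := p) hnp ?_ hpc ?_ ?_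
    · rw [hfl] at h5
      exact h5
    · intro y hy hyK
      refine hP.emp y hy fun h => hyK (Finset.mem_filter.2 ⟨hy, h⟩)
    · intro y hy N hN hnear
      exact (hP.pkg y (hKR hy) (hKne' y hy)).near N hN hnear
    · intro y hy
      rw [H35P.double (hP.sub y (hKR hy))]
      refine le_of_eq (Finset.sum_congr rfl fun w hw => ?_)
      simp only [SimpleGraph.adj_comm]
    · refine H35P.nn_add hc.1 hpc (F := hSit.dat.C.filter
        (fun z => z ≠ p ∧ ¬ hSit.dat.Adj p z)) ?_ (le_of_eq ?_)
      · intro z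
        rw [Finset.mem_filter]
        have h6 : z ∈ hSit.dat.C ↔ z ∈ c := by
          show z ∈ ([c] : List (List V)).flatten.toFinset ↔ z ∈ c
          rw [hfl, List.mem_toFinset]
        rw [h6]
        rfl
      · unfold H88C.Dat.nn
        congr
    · intro a ha ha0
      have h6 := hcount a ha ha0
      have h7 : ∀ y, hSit.dat.T y =
          ∑ w ∈ c.toFinset, ((I y).filter (fun u => G.Adj w u)).card := by
        intro y
        show ∑ w ∈ ([c] : List (List V)).flatten.toFinset,
          ((I y).filter (fun u => G.Adj w u)).card = _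
        rw [hfl]
      simp only [h7] at h6
      exact h6

/-- **the full theorem**, in terms of covers -/
theorem cov_all {V : Type u} [Fintype V] [DecidableEq V] (G : SimpleGraph V) [DecidableRel G.Adj]
    (k : ℕ)
    (hC : ∀ I : Finset V, G.IsIndepSet (I : Set V) → ∀ v ∈ I,
      I.card + 1 ≤ dU G Finset.univ v)
    (hσ : ∀ I : Finset V, G.IsIndepSet (I : Set V) → I.card = k + 1 →
      Fintype.card V ≤ ∑ v ∈ I, dU G Finset.univ v) : Cov G k :=
  q1_of_pkg H18C.cutStepP H18C.sideStepP mainStepP H62P.transferP G k hC hσ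

end Pool.Agent.H24Q
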